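import Pool.Agent.H37.CNU.Stmts

/-!
# Board `cnu`, row UNE: existence of the data of the `SU_3` cover (after the row SLE of helper48)
-/

set_option autoImplicit false

namespace Pool.CND

open Finset Matrix

/-- an element of positive order is not algebraic over the constants -/
theorem une_tr_of_pos {k L : Type} [Field k] [Field L] [Algebra k L] (P : Place k L) (x : L)
    (hx : x ≠ 0) (h : 0 < P.ord x) : Transcendental k x := by
  intro ha
  have hi : IsIntegral k x := ha.isIntegral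
  have h0 : (minpoly k x).coeff 0 ≠ 0 := by
    intro h0
    exact hx ((minpoly.coeff_zero_eq_zero hi).1 h0)
  have h1 : Polynomial.aeval x (minpoly k x) = 0 := minpoly.aeval k x
  have h2 : minpoly k x = Polynomial.X * (minpoly k x).divX
      + Polynomial.C ((minpoly k x).coeff 0) := (Polynomial.X_mul_divX_add _).symm
  rw [h2] at h1
  simp only [map_add, map_mul, Polynomial.aeval_X, Polynomial.aeval_C] at h1
  have h3 : P.Ge (Polynomial.aeval x (minpoly k x).divX) 0 := by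
    rw [Polynomial.aeval_eq_sum_range]
    refine P.ge_sum _ _ _ fun i _ => ?_
    rw [Algebra.smul_def]
    have h4 := P.ge_mul (P.ge_const ((minpoly k x).divX.coeff i))
      (Or.inr (le_of_eq (P.ord_pow hx i).symm) : P.Ge (x ^ i) (i * P.ord x))
    refine P.ge_mono h4 ?_
    positivity
  have h5 := P.ge_mul (P.ge_ord x) h3
  have h6 : algebraMap k L ((minpoly k x).coeff 0)
      = -(x * Polynomial.aeval x (minpoly k x).divX) := by
    linear_combination h1
  have h7 : P.Ge (algebraMap k L ((minpoly k x).coeff 0)) (P.ord x + 0) := by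
    rw [h6]
    exact P.ge_neg h5
  rcases h7 with h7 | h7
  · exact h0 ((map_eq_zero _).1 h7)
  · rw [P.ord_const _ h0] at h7
    omega

theorem une_tr_of_ne {k L : Type} [Field k] [Field L] [Algebra k L] (P : Place k L) (x : L)
    (hx : x ≠ 0) (h : P.ord x ≠ 0) : Transcendental k x := by
  rcases lt_or_gt_of_ne h with h | h
  · have h1 : Transcendental k x⁻¹ := une_tr_of_pos P x⁻¹ (inv_ne_zero hx) (by
      rw [P.ord_inv hx]; omega)
    intro ha
    exact h1 (IsAlgebraic.inv ha)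
  · exact une_tr_of_pos P x hx h

theorem une_thm (hUNL : S_UNL) (hLSP : S_LSP) (hSBP : S_SBP) (hUNR : S_UNR) (hUNS : S_UNS)
    (hUND : S_UND) (hUNG : S_UNG) : S_UNE := by
  intro p k F _ _ _ f q σ hp hc hf hq hF hσ
  have hq2 : 2 ≤ q := by
    rw [hq]
    calc 2 ≤ p := hp.two_le
      _ = p ^ 1 := (pow_one p).symm
      _ ≤ p ^ f := Nat.pow_le_pow_right hp.pos hf
  have hqq : q ≤ q ^ 2 := by nlinarith
  have he : (q ^ 2 - q + 1) + q = q ^ 2 + 1 := by omega
  have he' : ((q ^ 2 - q + 1 : ℕ) : ℤ) = (q : ℤ) ^ 2 - q + 1 := by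
    have h1 : ((q ^ 2 - q : ℕ) : ℤ) = (q : ℤ) ^ 2 - q := by
      rw [Nat.cast_sub hqq]
      push_cast
      rfl
    rw [Nat.cast_add, h1, Nat.cast_one]
  obtain ⟨X, Y, U, hX, hY, hU, oX, oY, oU, e1, e2⟩ := hUNL p k f q (q ^ 2 - q + 1) hp hc hf hq he
  obtain ⟨Λ, hΛ⟩ := hLSP k
  rw [← hΛ X hX] at oX
  rw [← hΛ Y hY] at oY
  rw [← hΛ U hU] at oU
  let E : IntermediateField k (LaurentSeries k) :=
    IntermediateField.adjoin k ({X, Y, U} : Set (LaurentSeries k))
  have hXE : X ∈ E := IntermediateField.subset_adjoin k _ (by simp)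
  have hYE : Y ∈ E := IntermediateField.subset_adjoin k _ (by simp)
  have hUE : U ∈ E := IntermediateField.subset_adjoin k _ (by simp)
  have hzE : U / Y ∈ E := div_mem hUE hYE
  have hz1 : Λ.ord (U / Y) = 1 := by
    rw [Λ.ord_div hU hY, oU, oY]
    push_cast [he']
    ring
  obtain ⟨P, hP⟩ := hSBP k (LaurentSeries k) Λ E ⟨_, hzE⟩
    (fun h => (div_ne_zero hU hY) (congrArg Subtype.val h)) hz1
  obtain ⟨x, hx⟩ : ∃ x : E, (x : LaurentSeries k) = X := ⟨⟨X, hXE⟩, rfl⟩
  obtain ⟨y, hy⟩ : ∃ y : E, (y : LaurentSeries k) = Y := ⟨⟨Y, hYE⟩, rfl⟩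
  obtain ⟨u, hu⟩ : ∃ u : E, (u : LaurentSeries k) = U := ⟨⟨U, hUE⟩, rfl⟩
  have hx0 : x ≠ 0 := fun h => hX (by rw [← hx, h]; rfl)
  have hy0 : y ≠ 0 := fun h => hY (by rw [← hy, h]; rfl)
  have hu0 : u ≠ 0 := fun h => hU (by rw [← hu, h]; rfl)
  have f1 : y ^ q + y = x ^ (q + 1) := by
    apply Subtype.ext
    push_cast
    rw [hx, hy]
    exact e1
  have f2 : u ^ (q ^ 2 - q + 1) = x ^ (q ^ 2) - x := by
    apply Subtype.ext
    push_cast
    rw [hx, hu]
    exact e2
  have ox : P.ord x = -((q * (q ^ 2 - q + 1) : ℕ) : ℤ) := by rw [hP, hx]; exact oX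
  have oy : P.ord y = -(((q + 1) * (q ^ 2 - q + 1) : ℕ) : ℤ) := by rw [hP, hy]; exact oY
  have ou : P.ord u = -((q ^ 3 : ℕ) : ℤ) := by rw [hP, hu]; exact oU
  have htop : (⊤ : IntermediateField k E).map E.val = E := by
    rw [← AlgHom.fieldRange_eq_map, IntermediateField.fieldRange_val]
  have hadj : IntermediateField.adjoin k {x, y, u} = ⊤ := by
    apply IntermediateField.map_injective E.val
    rw [htop, IntermediateField.adjoin_map]
    simp only [Set.image_insert_eq, Set.image_singleton]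
    show IntermediateField.adjoin k {(x : LaurentSeries k), (y : LaurentSeries k),
      (u : LaurentSeries k)} = E
    rw [hx, hy, hu]
  have hcE : CharP E p := charP_of_injective_algebraMap (algebraMap k E).injective p
  obtain ⟨t, ht⟩ : ∃ t : E, t = (1 / u) * (y / u) ^ (q ^ 5) + (y / u) * (1 / u) ^ (q ^ 5) -
    (x / u) ^ (q ^ 5 + 1) := ⟨_, rfl⟩
  have hR := (hUNR p E f q (q ^ 2 - q + 1) x y u t hp hcE hf hq he hu0 f1 f2 ht).1
  have hfin : Module.finrank (IntermediateField.adjoin k {t}) E =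
      q ^ 3 * ((q ^ 2 - 1) * (q ^ 3 + 1)) := by
    rw [← IntermediateField.relfinrank_top_right, ← hadj]
    exact hUND p k E P f q (q ^ 2 - q + 1) x y u t hp hc hf hq he hx0 hy0 hu0 ox oy ou f1 f2 ht
  -- the elements `X i`
  have g0 : (![1 / u, x / u, y / u] : Fin 3 → E) 0 = 1 / u := rfl
  have g1 : (![1 / u, x / u, y / u] : Fin 3 → E) 1 = x / u := rfl
  have g2 : (![1 / u, x / u, y / u] : Fin 3 → E) 2 = y / u := rfl
  have q1 : (![1 / u, x / u, y / u] : Fin 3 → E) 1 / (![1 / u, x / u, y / u] : Fin 3 → E) 0 = x := by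
    rw [g0, g1]
    field_simp
  have q2 : (![1 / u, x / u, y / u] : Fin 3 → E) 2 / (![1 / u, x / u, y / u] : Fin 3 → E) 0 = y := by
    rw [g0, g2]
    field_simp
  have q0 : 1 / (![1 / u, x / u, y / u] : Fin 3 → E) 0 = u := by
    rw [g0]
    field_simp
  have hadj2 : IntermediateField.adjoin k
      (insert t (Set.range (![1 / u, x / u, y / u] : Fin 3 → E))) = ⊤ := by
    rw [eq_top_iff, ← hadj, IntermediateField.adjoin_le_iff]
    have hm : ∀ i, (![1 / u, x / u, y / u] : Fin 3 → E) i ∈ IntermediateField.adjoin k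
        (insert t (Set.range (![1 / u, x / u, y / u] : Fin 3 → E))) := fun i =>
      IntermediateField.subset_adjoin k _ (Set.mem_insert_of_mem _ ⟨i, rfl⟩)
    have m1 := div_mem (hm 1) (hm 0)
    have m2 := div_mem (hm 2) (hm 0)
    have m0 := div_mem (one_mem _) (hm 0)
    rw [q1] at m1
    rw [q2] at m2
    rw [q0] at m0
    intro z hz
    simp only [Set.mem_insert_iff, Set.mem_singleton_iff] at hz
    rcases hz with rfl | rfl | rfl
    · exact m1
    · exact m2
    · exact m0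
  obtain ⟨ρ, a1, a2, a3⟩ := hUNG p k F E f q σ t _ hp hc hf hq hF hσ hR hadj2 hfin
  -- orders
  have o0 : P.ord (1 / u) = ((q ^ 3 : ℕ) : ℤ) := by
    rw [P.ord_div one_ne_zero hu0, P.ord_one, ou]
    ring
  have o1 : P.ord (x / u) = ((q ^ 2 - q : ℕ) : ℤ) := by
    rw [P.ord_div hx0 hu0, ox, ou, Nat.cast_sub hqq]
    push_cast [he']
    ring
  have o2 : P.ord (y / u) = -1 := by
    rw [P.ord_div hy0 hu0, oy, ou]
    push_cast [he']
    ring
  have n0 : 1 / u ≠ 0 := div_ne_zero one_ne_zero hu0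
  have n1 : x / u ≠ 0 := div_ne_zero hx0 hu0
  have n2 : y / u ≠ 0 := div_ne_zero hy0 hu0
  have hqpos : (2 : ℤ) ≤ q := by exact_mod_cast hq2
  have hmain : P.ord ((1 / u) * (y / u) ^ (q ^ 5)) = -((q ^ 3 * (q ^ 2 - 1) : ℕ) : ℤ) := by
    rw [P.ord_mul _ _ n0 (pow_ne_zero _ n2), P.ord_pow n2, o0, o2]
    have h1 : 1 ≤ q ^ 2 := Nat.one_le_pow _ _ (by omega)
    push_cast [Nat.cast_sub h1]
    ring
  have hneg : P.ord ((1 / u) * (y / u) ^ (q ^ 5)) < 0 := by
    rw [hmain]
    have h1 : 0 < q ^ 3 * (q ^ 2 - 1) := by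
      have h2 : 1 < q ^ 2 := by nlinarith
      exact Nat.mul_pos (by positivity) (by omega)
    omega
  have hsec : P.Ge ((y / u) * (1 / u) ^ (q ^ 5)) 0 := by
    refine Or.inr ?_
    rw [P.ord_mul _ _ n2 (pow_ne_zero _ n0), P.ord_pow n0, o0, o2]
    have h1 : (1 : ℤ) ≤ ((q ^ 5 : ℕ) : ℤ) * ((q ^ 3 : ℕ) : ℤ) := by
      have h2 : 1 ≤ q ^ 5 * q ^ 3 := Nat.one_le_iff_ne_zero.2 (by positivity)
      exact_mod_cast h2
    linarith
  have hthi : P.Ge ((x / u) ^ (q ^ 5 + 1)) 0 := by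
    refine Or.inr ?_
    rw [P.ord_pow n1, o1]
    positivity
  have hsum : P.Ge ((y / u) * (1 / u) ^ (q ^ 5) - (x / u) ^ (q ^ 5 + 1))
      (P.ord ((1 / u) * (y / u) ^ (q ^ 5)) + 1) :=
    P.ge_mono (P.ge_sub hsec hthi) (by omega)
  obtain ⟨ht0, hto⟩ := P.ord_add_of_lt (mul_ne_zero n0 (pow_ne_zero _ n2)) hsum
  have ht' : t = (1 / u) * (y / u) ^ (q ^ 5) + ((y / u) * (1 / u) ^ (q ^ 5) -
      (x / u) ^ (q ^ 5 + 1)) := by
    rw [ht]
    ring
  rw [← ht'] at ht0 hto
  refine ⟨E, inferInstance, inferInstance, t, ![1 / u, x / u, y / u], ρ, P, ?_⟩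
  exact {
    rels := hR
    act_t := a1
    act_X := a2
    ne := ⟨ht0, n0, n1, n2⟩
    ord_t := by rw [hto, hmain]
    ord_0 := o0
    ord_1 := o1
    ord_2 := o2
    tr := une_tr_of_ne P t ht0 (by rw [hto]; omega)
    fixed := a3
    span := by
      intro z
      obtain ⟨c, hc1, hc2⟩ := hUNS k E q (q ^ 2 - q + 1) x y u hq2 (by omega) hu0 f1 f2 z
        (by rw [hadj]; exact IntermediateField.mem_top)
      refine ⟨c, ?_, ?_⟩
      · intro i j
        rw [q1]
        exact hc1 i j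
      · rw [q2, q0]
        exact hc2 }

end Pool.CND
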